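import Pool.Agent.H70.OQ.Targets

/-!
# Modules EXG CHG BS0 SUB BLG BUG of MP_0f8dca_lc (all levels)
-/

set_option autoImplicit false

namespace Pool.Agent.H54.OQ

open Finset Pool.Agent.H6.NB Pool.Agent.H70.OQ

section

variable {B Ω : Type} {acc : Ω → Gn B Ω} {lev : Ω → ℕ} {h : ℕ}

theorem el_stab (hL : Lvg acc lev h) (T : B → Bool) (θ : Ω → Bool) (k : ℕ) :
    ∀ s, lev s < k → ∀ k', k ≤ k' → elG acc T θ k' s = elG acc T θ k s := by
  induction k with
  | zero => intro s hs; omega
  | succ k ih =>
    intro s hs k' hk'
    obtain ⟨k'', rfl⟩ : ∃ k'', k' = k'' + 1 := ⟨k' - 1, by omega⟩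
    show xor (acc s T (elG acc T θ k'')) (θ s) = xor (acc s T (elG acc T θ k)) (θ s)
    rw [hL.loc s T (elG acc T θ k'') (elG acc T θ k) (fun s' hs' => ih s' (by omega) k'' (by omega))]

theorem el_fix (hL : Lvg acc lev h) (T : B → Bool) (θ : Ω → Bool) (s : Ω) :
    elG acc T θ h s = xor (acc s T (elG acc T θ h)) (θ s) :=
  (el_stab hL T θ h s (hL.lt s) (h + 1) (by omega)).symm

end

/-- EXG -/
theorem exg : T_EXG := by
  intro B Ω acc lev h hL
  have p3 : ∀ T U e s, dlG acc h T U e s = xor (acc s T e) (acc s U (exG acc h T U e)) := by
    intro T U e s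
    have h2 : exG acc h T U e s = xor (acc s U (exG acc h T U e)) (thG acc T e s) :=
      el_fix hL U (thG acc T e) s
    unfold dlG
    rw [h2]
    unfold thG
    generalize acc s U (exG acc h T U e) = a
    generalize acc s T e = b
    cases e s <;> cases a <;> cases b <;> rfl
  refine ⟨fun T θ s => el_fix hL T θ s, ?_, p3, ?_⟩
  · intro T θ e he
    have key : ∀ n s, lev s < n → e s = elG acc T θ h s := by
      intro n
      induction n with
      | zero => intro s hs; omega
      | succ n ih =>
        intro s hs
        rw [he s, el_fix hL, hL.loc s T e (elG acc T θ h) (fun s' hs' => ih s' (by omega))]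
    funext s
    exact key (lev s + 1) s (by omega)
  · intro T U e e' s hee
    have key : ∀ n s, lev s < n → (∀ s', lev s' < lev s → e s' = e' s') →
        dlG acc h T U e s = dlG acc h T U e' s := by
      intro n
      induction n with
      | zero => intro s hs; omega
      | succ n ih =>
        intro s hs hee
        rw [p3, p3, hL.loc s T e e' hee,
          hL.loc s U (exG acc h T U e) (exG acc h T U e') (fun s' hs' => ?_)]
        have h3 := ih s' (by omega) (fun s'' hs'' => hee s'' (by omega))
        unfold dlG at h3
        rw [hee s' hs'] at h3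
        revert h3
        cases e' s' <;> cases exG acc h T U e s' <;> cases exG acc h T U e' s' <;> simp
    exact key (lev s + 1) s (by omega) hee

/-- CHG -/
theorem chg (h1 : T_EXG) : T_CHG := by
  intro B Ω _ _ acc lev h T f hL
  obtain ⟨p1, p2, _, _⟩ := h1 B Ω acc lev h hL
  let E : (Ω → Bool) ≃ (Ω → Bool) :=
    { toFun := fun κ => elG acc T κ h
      invFun := fun e => thG acc T e
      left_inv := by
        intro κ
        funext s
        show xor (elG acc T κ h s) (acc s T (elG acc T κ h)) = κ s
        rw [p1]
        generalize acc s T (elG acc T κ h) = a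
        cases a <;> cases κ s <;> rfl
      right_inv := by
        intro e
        refine (p2 T (thG acc T e) e (fun s => ?_)).symm
        unfold thG
        generalize acc s T e = a
        cases a <;> cases e s <;> rfl }
  refine Fintype.sum_equiv E _ _ (fun κ => ?_)
  have h3 : thG acc T (E κ) = κ := E.left_inv κ
  rw [h3]
  rfl

theorem card_prod_le {W E : Type} [Fintype W] [Fintype E] (P : W → E → Prop)
    [∀ w e, Decidable (P w e)] (c : ℝ)
    (h : ∀ e, ((univ.filter fun w => P w e).card : ℝ) ≤ c) :
    ((univ.filter fun p : W × E => P p.1 p.2).card : ℝ) ≤ Fintype.card E * c := by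
  have e1 : (univ.filter fun p : W × E => P p.1 p.2).card =
      ∑ e, (univ.filter fun w => P w e).card := by
    rw [Finset.card_filter, Fintype.sum_prod_type_right]
    refine Finset.sum_congr rfl fun e _ => ?_
    rw [Finset.card_filter]
  rw [e1]
  push_cast
  calc ∑ e, ((univ.filter fun w => P w e).card : ℝ) ≤ ∑ _e : E, c := Finset.sum_le_sum fun e _ => h e
    _ = Fintype.card E * c := by rw [Finset.sum_const, Finset.card_univ, nsmul_eq_mul]

/-- BS0 -/
theorem bs0 (h1 : T_FMS) : T_BS0 := by
  classical
  intro W X B Ω _ _ _ _ _ T U acc lev h S t d k K δ _ hf G hG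
  have key : ∀ e : Ω → Bool, ((univ.filter fun w : W =>
      TyG acc lev h K 0 (T w) (U w) e ∧ k < (dfx acc h G (T w) (U w) e).card).card : ℝ) ≤
      δ * Fintype.card W := by
    intro e
    have hF : Fm S t d (fun y : B → Bool => G y e) := by
      have h2 := h1 (B ⊕ Ω) B S t 1 d (fun y : B ⊕ Ω → Bool =>
        G (fun b => y (.inl b)) fun s => y (.inr s)) (fun v y => Sum.elim y e v) ?_ hG.1
      · rw [mul_one] at h2
        exact h2
      · rintro (b | s)
        · exact ⟨.node b (.leaf false) (.leaf true), by simp [Pool.Agent.H68.AC.DT.depth],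
            fun y => by simp only [Pool.Agent.H68.AC.DT.eval, Sum.elim_inl]; cases y b <;> rfl⟩
        · exact ⟨.leaf (e s), by simp [Pool.Agent.H68.AC.DT.depth], fun y => rfl⟩
    refine le_trans ?_ (hf _ hF)
    refine Nat.cast_le.2 (card_le_card fun w hw => ?_)
    rw [mem_filter] at hw ⊢
    refine ⟨mem_univ _, lt_of_lt_of_le hw.2.2 (card_le_card fun x hx => ?_)⟩
    unfold dfx at hx
    rw [mem_filter] at hx ⊢
    refine ⟨mem_univ _, ?_⟩
    rw [hG.2 (U w x) e (exG acc h (T w) (U w x) e) (fun s hs => absurd hs (Nat.not_lt_zero _))]
    exact hx.2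
  have h3 := card_prod_le (fun (w : W) (e : Ω → Bool) =>
    TyG acc lev h K 0 (T w) (U w) e ∧ k < (dfx acc h G (T w) (U w) e).card) _ key
  refine h3.trans (le_of_eq ?_)
  rw [Fintype.card_fun, Fintype.card_bool]
  push_cast
  ring

/-- the parity of a finite set of variables -/
theorem parity_tree {X : Type} [DecidableEq X] (D : Finset X) : ∀ b : Bool,
    ∃ T : Pool.Agent.H68.AC.DT X, T.depth ≤ D.card ∧
      ∀ z : X → Bool, T.eval z = xor b (decide (Odd (D.filter fun x => z x = true).card)) := by
  induction D using Finset.induction_on with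
  | empty =>
    intro b
    exact ⟨.leaf b, by simp [Pool.Agent.H68.AC.DT.depth], fun z => by
      simp [Pool.Agent.H68.AC.DT.eval]⟩
  | insert x D hx ih =>
    intro b
    obtain ⟨T0, hd0, he0⟩ := ih b
    obtain ⟨T1, hd1, he1⟩ := ih (!b)
    refine ⟨.node x T0 T1, ?_, fun z => ?_⟩
    · rw [card_insert_of_notMem hx]
      simp only [Pool.Agent.H68.AC.DT.depth]
      omega
    · simp only [Pool.Agent.H68.AC.DT.eval]
      cases hz : z x with
      | false =>
        rw [filter_insert, if_neg (by rw [hz]; simp)]
        simp only [cond_false]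
        exact he0 z
      | true =>
        rw [filter_insert, if_pos hz, card_insert_of_notMem (fun hm => hx (mem_filter.1 hm).1)]
        simp only [cond_true]
        rw [he1 z]
        by_cases ho : Odd (D.filter fun x => z x = true).card
        · have : ¬ Odd ((D.filter fun x => z x = true).card + 1) := by
            rw [Nat.odd_add_one]; exact not_not.2 ho
          simp [ho, this]
        · have : Odd ((D.filter fun x => z x = true).card + 1) := by
            rw [Nat.odd_add_one]; exact ho
          simp [ho, this]

/-- SUB -/
theorem sub (h1 : T_FMS) : T_SUB := by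
  classical
  intro X B Ω _ _ acc lev h j M S t d G T U e hG hM hD
  have hfl : ∀ s, Fm S M 0 (fun z : X → Bool => flG acc lev h T U j e z s) := by
    intro s
    by_cases hs : lev s = j
    · obtain ⟨T', hd, he⟩ := parity_tree (dsG acc h T U e s) (e s)
      refine ⟨T', hd.trans (hD s hs), fun z => ?_⟩
      rw [he z]
      unfold flG
      beta_reduce
      rw [if_pos hs]
      congr 3
      unfold dsG
      rw [filter_filter]
      congr 1
      ext x
      simp only [mem_filter, mem_univ, true_and]
      tauto
    · refine ⟨.leaf (e s), by simp [Pool.Agent.H68.AC.DT.depth], fun z => ?_⟩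
      unfold flG
      beta_reduce
      rw [if_neg hs]
      rfl
  have hc : ∀ b : Bool, Fm S M 0 (fun _ : X → Bool => b) := fun b =>
    ⟨.leaf b, by simp [Pool.Agent.H68.AC.DT.depth], fun _ => rfl⟩
  refine ⟨?_, fun x => ?_⟩
  · have h2 := h1 (B ⊕ Ω) X S t M d (fun y : B ⊕ Ω → Bool =>
        G (fun b => y (.inl b)) fun s => y (.inr s))
        (fun v z => Sum.elim T (flG acc lev h T U j e z) v) ?_ hG
    · exact h2
    · rintro (b | s)
      · exact hc (T b)
      · exact hfl s
  · have h2 := h1 (B ⊕ Ω) X S t M d (fun y : B ⊕ Ω → Bool =>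
        G (fun b => y (.inl b)) fun s => y (.inr s))
        (fun v z => Sum.elim (U x) (fun s => if lev s < j then exG acc h T (U x) e s else
          flG acc lev h T U j e z s) v) ?_ hG
    · exact h2
    · rintro (b | s)
      · exact hc (U x b)
      · by_cases hs : lev s < j
        · have : (fun z : X → Bool => (Sum.elim (U x) (fun s => if lev s < j then
              exG acc h T (U x) e s else flG acc lev h T U j e z s) (Sum.inr s : B ⊕ Ω) : Bool)) =
              fun _ => exG acc h T (U x) e s := by
            funext z
            simp only [Sum.elim_inr]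
            rw [if_pos hs]
          show Fm S M 0 (fun z : X → Bool => (Sum.elim (U x) (fun s => if lev s < j then
              exG acc h T (U x) e s else flG acc lev h T U j e z s) (Sum.inr s : B ⊕ Ω) : Bool))
          rw [this]
          exact hc _
        · have : (fun z : X → Bool => (Sum.elim (U x) (fun s => if lev s < j then
              exG acc h T (U x) e s else flG acc lev h T U j e z s) (Sum.inr s : B ⊕ Ω) : Bool)) =
              fun z => flG acc lev h T U j e z s := by
            funext z
            simp only [Sum.elim_inr]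
            rw [if_neg hs]
          show Fm S M 0 (fun z : X → Bool => (Sum.elim (U x) (fun s => if lev s < j then
              exG acc h T (U x) e s else flG acc lev h T U j e z s) (Sum.inr s : B ⊕ Ω) : Bool))
          rw [this]
          exact hfl s

/-! ## Oracles -/

open Classical in
/-- the operator whose fixed point is the oracle -/
noncomputable def Phi (A : List Bool → (List Bool → Bool) → Prop) (σ O : List Bool → Bool) :
    List Bool → Bool :=
  fun w => xor (σ w) (decide (∃ s, w = key s ∧ A s O))

theorem Phi_congr {A : List Bool → (List Bool → Bool) → Prop} (hA : LocA A)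
    {σ σ' O O' : List Bool → Bool} {w : List Bool} (hσ : σ w = σ' w)
    (h : ∀ w', w'.length < w.length → O w' = O' w') : Phi A σ O w = Phi A σ' O' w := by
  unfold Phi
  rw [hσ]
  congr 1
  rw [decide_eq_decide]
  refine exists_congr (fun s => and_congr_right (fun hw => ?_))
  refine hA s O O' (fun w' hw' => h w' ?_)
  have : w'.length ≤ s.length := by nlinarith [Nat.zero_le w'.length]
  rw [hw]
  unfold key
  simp only [List.length_cons]
  omega

/-- BLG -/
theorem blg : T_BLG := by
  intro A hA σ
  set It : ℕ → List Bool → Bool := fun k => (Phi A σ)^[k] σ with hIt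
  have hstep : ∀ k, It (k + 1) = Phi A σ (It k) := by
    intro k
    rw [hIt]
    exact Function.iterate_succ_apply' _ _ _
  have hst : ∀ k w, w.length < k → ∀ k', k ≤ k' → It k' w = It k w := by
    intro k
    induction k with
    | zero => intro w hw; omega
    | succ k ih =>
      intro w hw k' hk'
      obtain ⟨k'', rfl⟩ : ∃ k'', k' = k'' + 1 := ⟨k' - 1, by omega⟩
      rw [hstep, hstep]
      exact Phi_congr hA rfl (fun w' hw' => ih w' (by omega) k'' (by omega))
  refine ⟨fun w => It (w.length + 1) w, fun w => ?_⟩
  show It (w.length + 1) w = Phi A σ (fun w => It (w.length + 1) w) w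
  rw [hstep]
  refine Phi_congr hA rfl (fun w' hw' => ?_)
  exact hst (w'.length + 1) w' (by omega) w.length (by omega)

/-- BUG -/
theorem bug : T_BUG := by
  intro A σ σ' O O' l hA hO hO' hσ
  have key : ∀ n w, w.length < n → w.length ≤ l → O w = O' w := by
    intro n
    induction n with
    | zero => intro w hw; omega
    | succ n ih =>
      intro w hw hwl
      have e1 : O w = Phi A σ O w := hO w
      have e2 : O' w = Phi A σ' O' w := hO' w
      rw [e1, e2]
      exact Phi_congr hA (hσ w hwl) (fun w' hw' => ih w' (by omega) (by omega))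
  intro w hw
  exact key (w.length + 1) w (by omega) hw

end Pool.Agent.H54.OQ
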