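import Pool.Agent.H70.OQ.Targets
import Pool.Agent.H6.NB.All
import Pool.Agent.H68.AC.Final

/-!
# Modules SWU SWT of MP_0f8dca_lc (all levels)
-/

set_option autoImplicit false

namespace Pool.Agent.H54.OQ

open Finset Pool.Agent.H70.OQ
open Pool.Agent.H68.AC (PA Ckt fd Wt rho Ext ind mrg mask can BPF gW)

theorem ic_nonneg (p : Prop) : 0 ≤ ic p := by
  unfold ic; split_ifs <;> norm_num

theorem ic_true {p : Prop} (h : p) : ic p = 1 := by
  unfold ic; rw [if_pos h]

theorem ic_false {p : Prop} (h : ¬ p) : ic p = 0 := by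
  unfold ic; rw [if_neg h]

theorem fd_mono {V : Type} {d : ℕ} (R : Fin d → PA V) (i j : ℕ) (hij : i ≤ j) (v : V) (b : Bool)
    (h : fd R i v = some b) : fd R j v = some b := by
  induction j, hij using Nat.le_induction with
  | base => exact h
  | succ j hj ih =>
    simp only [fd, mrg]
    rw [ih]

/-- SWU -/
theorem swu : T_SWU := by
  classical
  intro V ι _ _ _ D S w q f hf hw hq0 hq2 hqw
  choose s C hs hC using fun i => Pool.Agent.H6.NB.pf_CKT V S D (f i) (hf i)
  have hq1 : q ≤ 1 := by linarith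
  have hpt : ∀ R : Fin (D + 1) → PA V, ic (¬ ∀ i, ∃ T : Pool.Agent.H68.AC.DT V, T.depth ≤ w ∧
        ∀ y, Ext (fd R (D + 1)) y → T.eval y = f i y) ≤
      ∑ i, ind (∃ g, w < ((C i).T ∅ R g).depth) := by
    intro R
    by_cases hall : ∀ i, ∃ T : Pool.Agent.H68.AC.DT V, T.depth ≤ w ∧
        ∀ y, Ext (fd R (D + 1)) y → T.eval y = f i y
    · rw [ic_false (not_not.2 hall)]
      exact Finset.sum_nonneg fun i _ => Pool.Agent.H68.AC.ind_nonneg _
    · rw [ic_true hall]
      push Not at hall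
      obtain ⟨i, hi⟩ := hall
      have hbad : ∃ g, w < ((C i).T ∅ R g).depth := by
        by_contra hno
        push Not at hno
        obtain ⟨y, hy, hne⟩ := hi ((C i).T ∅ R (C i).out) (hno _)
        apply hne
        rw [← hC i y]
        apply Pool.Agent.H68.AC.cor_t V (s i) (D + 1) (C i) ∅ R (C i).out
        intro v b hv
        have h6 : fd R ((C i).lev (C i).out + 1) v = some b := by
          simpa [rho, mask] using hv
        exact hy v b (fd_mono R _ (D + 1) ((C i).lev_lt (C i).out) v b h6)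
      calc (1 : ℝ) = ind (∃ g, w < ((C i).T ∅ R g).depth) :=
            (Pool.Agent.H68.AC.ind_true hbad).symm
        _ ≤ _ := Finset.single_le_sum (f := fun i => ind (∃ g, w < ((C i).T ∅ R g).depth))
            (fun i _ => Pool.Agent.H68.AC.ind_nonneg _) (Finset.mem_univ i)
  have hA : ∀ i, ∑ R : Fin (D + 1) → PA V, Wt q (1 / 2) R * ind (∃ g, w < ((C i).T ∅ R g).depth) ≤
      ((S : ℝ) + 1) ^ (D + 1) / 2 ^ w := by
    intro i
    have h1 := Pool.Agent.H68.AC.A V (s i) (D + 1) (C i) w ∅ (1 / 2) q hw (by norm_num) (le_refl _)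
      hq0 hq2 (by linarith)
    rw [Finset.card_empty, pow_zero, mul_one] at h1
    refine h1.trans ?_
    have e2 : (s i : ℝ) ≤ ((S : ℝ) + 1) ^ (D + 1) := by exact_mod_cast hs i
    have e3 : (3 / 2 / 2 ^ (w + 1) : ℝ) ≤ 1 / 2 ^ w := by
      rw [pow_succ, div_div, div_le_div_iff₀ (by positivity) (by positivity)]
      have : (0 : ℝ) < 2 ^ w := by positivity
      linarith
    calc (s i : ℝ) * (3 / 2 / 2 ^ (w + 1)) ≤ ((S : ℝ) + 1) ^ (D + 1) * (1 / 2 ^ w) :=
          mul_le_mul e2 e3 (by positivity) (by positivity)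
      _ = _ := by ring
  calc ∑ R : Fin (D + 1) → PA V, Wt q (1 / 2) R *
        ic (¬ ∀ i, ∃ T : Pool.Agent.H68.AC.DT V, T.depth ≤ w ∧
          ∀ y, Ext (fd R (D + 1)) y → T.eval y = f i y)
      ≤ ∑ R : Fin (D + 1) → PA V, ∑ i, Wt q (1 / 2) R *
          ind (∃ g, w < ((C i).T ∅ R g).depth) := by
        refine Finset.sum_le_sum fun R _ => ?_
        rw [← Finset.mul_sum]
        exact mul_le_mul_of_nonneg_left (hpt R)
          (Pool.Agent.H68.AC.Wt_nonneg hq0.le hq1 (show (0 : ℝ) ≤ 1 / 2 by norm_num)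
            (show (1 / 2 : ℝ) ≤ 1 by norm_num) R)
    _ = ∑ i, ∑ R : Fin (D + 1) → PA V, Wt q (1 / 2) R *
          ind (∃ g, w < ((C i).T ∅ R g).depth) := Finset.sum_comm
    _ ≤ ∑ _i : ι, ((S : ℝ) + 1) ^ (D + 1) / 2 ^ w := Finset.sum_le_sum fun i _ => hA i
    _ = Fintype.card ι * ((S : ℝ) + 1) ^ (D + 1) / 2 ^ w := by
        rw [Finset.sum_const, Finset.card_univ, nsmul_eq_mul]; ring

theorem uw_nonneg {A Z : Type} [Fintype A] [DecidableEq Z] (L : A → Finset Z) (h : A → Z) :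
    0 ≤ uw L h := by
  unfold uw
  refine Finset.prod_nonneg fun a _ => ?_
  split_ifs <;> positivity

theorem lw_nonneg {A : Type} [Fintype A] {q : ℝ} (h0 : 0 ≤ q) (h1 : q ≤ 1) (l : A → Bool) :
    0 ≤ lw q l := by
  unfold lw
  refine Finset.prod_nonneg fun a _ => ?_
  split_ifs <;> linarith

/-- SWT -/
theorem swt (h1 : T_SWX) : T_SWT := by
  classical
  intro A Z _ _ _ _ cs w q L hw hcs hq0 hqw hL
  have hwr : (1 : ℝ) ≤ w := by exact_mod_cast hw
  have hq1 : q ≤ 1 := by nlinarith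
  have h2 := h1 A Z cs w (Fintype.card (A × Z)) q L hw hcs hq0 hqw hL
  have hpt : ∀ κ : PA (A × Z), ic (w < (can cs (Fintype.card (A × Z) + 1) κ).depth) ≤
      1 / 2 ^ (w + 1) * ∑ π ∈ BPF cs (Fintype.card (A × Z)) κ, gW 2 ∅ π.flatten := by
    intro κ
    have hnn : ∀ π : List (List ((A × Z) × Bool)), 0 ≤ gW 2 (∅ : Finset (A × Z)) π.flatten :=
      fun π => Pool.Agent.H68.AC.gW_nonneg (by norm_num) _ _
    by_cases hd : w < (can cs (Fintype.card (A × Z) + 1) κ).depth
    · rw [ic_true hd]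
      obtain ⟨ψ, c, hψ, hlen⟩ := Pool.Agent.H68.AC.exists_long_path
        (can cs (Fintype.card (A × Z) + 1) κ)
      obtain ⟨π, hπ, hbp, _⟩ := Pool.Agent.H68.AC.canp_t (A × Z) _ _ _ _ _
        (Pool.Agent.H68.AC.nfree_le _) hψ
      obtain ⟨_, _, hl⟩ := Pool.Agent.H68.AC.bpn_t (A × Z) _ _ _ hbp
      have hge : (2 : ℝ) ^ (w + 1) ≤ gW 2 (∅ : Finset (A × Z)) π.flatten := by
        rw [Pool.Agent.H68.AC.gW_empty, hπ, hlen]
        exact pow_le_pow_right₀ (by norm_num) hd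
      have hle : gW 2 (∅ : Finset (A × Z)) π.flatten ≤
          ∑ π ∈ BPF cs (Fintype.card (A × Z)) κ, gW 2 ∅ π.flatten :=
        Finset.single_le_sum (f := fun π : List (List ((A × Z) × Bool)) => gW 2 ∅ π.flatten)
          (fun π _ => hnn π) (Pool.Agent.H68.AC.mem_BPF.2 ⟨hbp, hl⟩)
      rw [one_div, inv_mul_eq_div, le_div_iff₀ (by positivity), one_mul]
      exact hge.trans hle
    · rw [ic_false hd]
      exact mul_nonneg (by positivity) (Finset.sum_nonneg fun π _ => hnn π)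
  calc ∑ h : A → Z, ∑ l : A → Bool, uw L h * lw q l *
        ic (w < (can cs (Fintype.card (A × Z) + 1) (kap h l)).depth)
      ≤ ∑ h : A → Z, ∑ l : A → Bool, uw L h * lw q l * (1 / 2 ^ (w + 1) *
          ∑ π ∈ BPF cs (Fintype.card (A × Z)) (kap h l), gW 2 ∅ π.flatten) := by
        refine Finset.sum_le_sum fun h _ => Finset.sum_le_sum fun l _ => ?_
        exact mul_le_mul_of_nonneg_left (hpt _) (mul_nonneg (uw_nonneg L h) (lw_nonneg hq0.le hq1 l))
    _ = 1 / 2 ^ (w + 1) * ∑ h : A → Z, ∑ l : A → Bool, uw L h * lw q l *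
          ∑ π ∈ BPF cs (Fintype.card (A × Z)) (kap h l), gW 2 ∅ π.flatten := by
        rw [Finset.mul_sum]
        refine Finset.sum_congr rfl fun h _ => ?_
        rw [Finset.mul_sum]
        refine Finset.sum_congr rfl fun l _ => ?_
        ring
    _ ≤ 1 / 2 ^ (w + 1) * 5 := mul_le_mul_of_nonneg_left h2 (by positivity)
    _ = 5 / 2 ^ (w + 1) := by ring

end Pool.Agent.H54.OQ
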